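import Pool.Agent.helper67.TPC.Spec

/-! # MP_ebc808_nt, row tpc:EXC: the number of exceptional pairs -/

set_option autoImplicit false

open Finset PowerSeries

noncomputable section

namespace Pool.Agent.TPC

open Pool.Agent.EP

theorem EXC_lt (s Y u N : ℕ) (h : 2 ^ s * u ^ 2 ≤ N) (hN : N ≤ Y) : u < Nat.sqrt Y + 1 := by
  have h0 : 1 * u ^ 2 ≤ 2 ^ s * u ^ 2 := Nat.mul_le_mul_right _ Nat.one_le_two_pow
  have h1 : u ≤ Nat.sqrt Y := by
    rw [Nat.le_sqrt']
    omega
  omega

open Classical in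
/-- EXC -/
theorem EXC : EXC_stmt := by
  intro s Q m μ κ y hQ
  set S : ℕ := Nat.sqrt (4 * Q * y) + 1 with hS
  let A : Finset (ℕ × ℕ) := (Pq m κ y ×ˢ range S).image fun x => (2 ^ s * x.2 ^ 2 - Q * x.1, x.1)
  let B : Finset (ℕ × ℕ) := (Pq m κ y ×ˢ range S).image fun x => (2 ^ s * x.2 ^ 2 + x.1, x.1)
  let C : Finset (ℕ × ℕ) := (Pq m κ y ×ˢ (range S ×ˢ range (2 * Q))).image
    fun x => ((Q * x.1 - 2 ^ s * x.2.1 ^ 2) / x.2.2, x.1)
  have hsub : {x ∈ Pq m μ y ×ˢ Pq m κ y | Exc s Q x.1 x.2} ⊆ A ∪ (B ∪ C) := by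
    rintro ⟨M, p⟩ hx
    rw [mem_filter, mem_product] at hx
    dsimp only at hx
    obtain ⟨⟨hM, hp⟩, hx⟩ := hx
    have hM' := hM
    have hp' := hp
    unfold Pq at hM' hp'
    rw [mem_filter, mem_Ioc] at hM' hp'
    obtain ⟨⟨hM1, hM2⟩, -, -⟩ := hM'
    obtain ⟨⟨hp1, hp2⟩, -, -⟩ := hp'
    have hQp : Q * p ≤ 2 * Q * y := by
      calc Q * p ≤ Q * (2 * y) := Nat.mul_le_mul_left _ hp2
        _ = 2 * Q * y := by ring
    have hQy : 1 * y ≤ Q * y := Nat.mul_le_mul_right _ hQ
    have e1 : 2 * Q * y = 2 * (Q * y) := by ring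
    have e2 : 4 * Q * y = 4 * (Q * y) := by ring
    rw [mem_union, mem_union]
    unfold Exc at hx
    rcases hx with ⟨u, hu⟩ | ⟨u, hu, k, hk⟩ | ⟨u, hu, k, hk⟩
    · left
      refine mem_image.mpr ⟨(p, u), mem_product.mpr ⟨hp, ?_⟩, ?_⟩
      · rw [mem_range, hS]
        exact EXC_lt s _ u (M + Q * p) hu.ge (by omega)
      · dsimp only
        rw [Prod.mk.injEq]
        exact ⟨by omega, rfl⟩
    · right
      left
      refine mem_image.mpr ⟨(p, u), mem_product.mpr ⟨hp, ?_⟩, ?_⟩
      · rw [mem_range, hS]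
        exact EXC_lt s _ u M hu.le (by omega)
      · dsimp only
        rw [Prod.mk.injEq]
        refine ⟨?_, rfl⟩
        have hk1 : k = 1 := by
          rcases Nat.lt_or_ge k 1 with h | h
          · have h0 : k = 0 := by omega
            subst h0
            omega
          · rcases Nat.lt_or_ge k 2 with h' | h'
            · omega
            · have h4 : p * 2 ≤ p * k := Nat.mul_le_mul_left p h'
              omega
        subst hk1
        omega
    · right
      right
      have hk0 : 0 < k := by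
        rcases Nat.eq_zero_or_pos k with h | h
        · subst h
          omega
        · exact h
      refine mem_image.mpr ⟨(p, (u, k)), mem_product.mpr ⟨hp, mem_product.mpr ⟨?_, ?_⟩⟩, ?_⟩
      · rw [mem_range, hS]
        exact EXC_lt s _ u (Q * p) hu.le (by omega)
      · rw [mem_range]
        dsimp only
        by_contra h3
        push Not at h3
        have h4 : M * (2 * Q) ≤ M * k := Nat.mul_le_mul_left M h3
        have h5 : Q * (y + 1) ≤ Q * M := Nat.mul_le_mul_left Q hM1
        have h6 : M * (2 * Q) = 2 * (Q * M) := by ring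
        have h7 : Q * (y + 1) = Q * y + Q := by ring
        omega
      · dsimp only
        rw [Prod.mk.injEq]
        refine ⟨?_, rfl⟩
        rw [hk]
        exact Nat.mul_div_cancel _ hk0
  have hA : #A ≤ #(Pq m κ y) * S := by
    refine le_trans card_image_le ?_
    rw [card_product, card_range]
  have hB : #B ≤ #(Pq m κ y) * S := by
    refine le_trans card_image_le ?_
    rw [card_product, card_range]
  have hC : #C ≤ #(Pq m κ y) * (S * (2 * Q)) := by
    refine le_trans card_image_le ?_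
    rw [card_product, card_product, card_range, card_range]
  calc #{x ∈ Pq m μ y ×ˢ Pq m κ y | Exc s Q x.1 x.2} ≤ #(A ∪ (B ∪ C)) := card_le_card hsub
    _ ≤ #A + (#B + #C) :=
      (card_union_le _ _).trans (Nat.add_le_add_left (card_union_le _ _) _)
    _ ≤ #(Pq m κ y) * S + (#(Pq m κ y) * S + #(Pq m κ y) * (S * (2 * Q))) :=
      Nat.add_le_add hA (Nat.add_le_add hB hC)
    _ = (2 * Q + 2) * S * #(Pq m κ y) := by ring

end Pool.Agent.TPC
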